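import Mathlib
import Pool.Agent.H200Z.Defs
import Pool.Agent.H200Z.Data1

set_option autoImplicit false

namespace Pool.Agent.Results.MP_1acbfe_co.EvasiveLC

open Pool.Agent.H200Z

/-- There is a triangulated 3-ball that is locally constructible and evasive. -/
theorem result : ∃ (n : ℕ) (K : Finset (Finset (Fin n))),
    IsBall 3 K ∧ IsLC 3 K ∧ ¬ NonEvasive K :=
  ⟨14, _, B1_ball, B1_LC, B1_evasive⟩

end Pool.Agent.Results.MP_1acbfe_co.EvasiveLC
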